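import Mathlib
import Pool.Agent.TH115.GD.Defs
import Pool.Agent.U660.FT.Dens
import Pool.Agent.U660.FT.Rank

/-!
# The Tate conjecture at 2 for 100% of the pullbacks of the elliptic curves over `k(s)` with full level two
# and complete first descent, over all finitely generated fields of characteristic different from 2 and all
# their extensions with solvable constants

Let `R` be an integrally closed domain which is finitely generated as a ring and not a field, with
`2 ≠ 0` in `R`, and `k` its field of fractions. (Each infinite finitely generated field of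
characteristic different from 2 is the field of fractions of such an `R`.)

Let `E₀ : y² = x (x - a) (x - b)` be an elliptic curve over `K₀ = k(s)`, `a`, `b` coprime polynomials. It is
called a base (`Pool.Agent.X243.Gen.Base`) if

* `a`, `b`, `a - b` are nonzero and products of linear polynomials over `k` (so the finite places of bad
  reduction are rational; any multiplicities are allowed, the fibre at a root of multiplicity `m` is of
  type `I_(2m)`);
* the maximum of the degrees of `a` and `b` is odd, or two of `a`, `b`, `a - b` have a root of odd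
  multiplicity;
* the first descent is complete (`Complete`): for all monic squarefree divisors `A`, `B`, `D` of `a`, `b`,
  `a - b` which satisfy the condition `InfCond` at infinity (no condition if the maximum of the degrees
  of `a`, `b` is odd) there is a point `P` of `E₀(K₀)` with `x(P) = A B`, `x(P) - a = A D` up to constants
  and squares.

For coprime polynomials `q`, `r` in `t` over `k` let `E` be the pullback of `E₀` by `s = q(t) / r(t)`, the
curve `y² = x (x - a') (x - b')`, `a' = pb q r a`, `b' = pb q r b`, the homogenizations of `a` and `b`. If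
`r ≠ 1` we assume that `a`, `b`, `a - b` have the same even degree (`FullDegree`: good reduction at
`s = ∞`); for `r = 1`, the pullbacks by polynomials, all bases are allowed. `E` is the generic fibre of an
elliptic surface over the projective line, whose geometric genus tends to infinity with the degrees of `q`, `r`.

Call `(q, r)` good (for `E₀`, of degree `n`) if `q`, `r` are coprime, for all roots `ξ` of `a b (a - b)` the form
`q - ξ r` is irreducible over `k` of degree `n` and separable, and for EVERY extension field `L` of `k` (for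
example `L = k`) with a separable closure `L'` the following holds.

(A) If the elements of `L` which are separable algebraic over `k` lie in a normal extension `M` of `k` in
`L'` such that none of the forms `q - ξ r` splits into linear factors over `M`, then (`HoldsOver`) the Tate
conjecture for divisors at the prime 2 holds for the surface over `L` (`TateAtTwo`: the classes in
`V₂ Sel(E / L'(t))` which are fixed by the Galois group come from `E(L(t))`), and the first descent on `E`
over `L(t)` is complete (`Complete`).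

(B) The same is true if for each element of `L` which is separable algebraic over `k` the Galois group of
its minimal polynomial over `k` is solvable.

Theorem. Let `n ≥ 5` be odd.

(1) For every `η > 0`, every `μ` and every `D ≠ 0` in `R` there is an ideal `M` of `R` with finite quotient
such that for EVERY base `E₀` with `FullDegree` for which the roots `ξ` of `a b (a - b)` are among `ρ₁ / D`,
..., `ρ_μ / D` with `ρ_i` in `R`, the proportion of the residue classes modulo `M` of pairs `(q, r)` over
`R` of degree at most `n`, such that EVERY pair over `R` in the class is good for `E₀`, is at least `1 - η`.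

(2) If `B 0`, `B 1`, ... is a sequence of nonempty finite sets of pairs over `R` of degree at most `n` which is
equidistributed modulo each ideal of `R` with finite quotient, then for every base with `FullDegree` the
proportion of the good pairs in `B i` tends to `1`.

(3), (4) The same for the pullbacks by polynomials `s = h(t)` of degree at most `n`, for ALL bases.

(5) Examples of bases: the Legendre curve `a = s`, `b = s - 1`; the curves `a = c - s`, `b = c - e s` with
`c e` a nonzero square in `k` and `e ≠ 1`, which have a point of infinite order over `k(s)`; for every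
`β ≠ 0, 1, -1` in `k` the curve `a = β² s² - 1`, `b = (β² - 1) s²` (with `FullDegree`; fibres `I₄`, `I₂`, `I₂`,
`I₂`, `I₂`), which has a point of infinite order over `k(s)`.

The hand-in `MP_97f789_ag.FullLevelTwoPullbacks` is about the rational elliptic surfaces with six fibres of
type `I₂`; here are the bases with multiple roots and with bad reduction of additive type at infinity
(pullbacks by polynomials). The proof uses the unused library files `Pool.Agent.X243.Gen.Pull` to `Pull6`:
Frobenius elements at maximal ideals of `R` show that the Galois groups of the forms over `k` are the full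
symmetric groups, so they stay irreducible over `L` of odd degree; each squarefree divisor of `a'` is then
the pullback of a divisor of `a`; so the first descent on `E` is complete, and the criterion of
`Pool.Agent.TH115.GD` applies. Last, a sieve over the maximal ideals of `R`.
-/

set_option autoImplicit false
set_option linter.all false

namespace Pool.Agent.Results.MP_17a657_ag.CompleteDescentPullbacks

open Polynomial Pool.Agent.TH115.GD Filter Topology
open Pool.Agent.X243.Gen (Base Complete a5 b5 pb)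
open scoped Classical

/-- The polynomial over `k` with the coefficients `c`. -/
noncomputable def poly {R : Type} [CommRing R] (k : Type) [Field k] [Algebra R k] {r : ℕ}
    (c : Fin r → R) : k[X] :=
  ∑ j : Fin r, C (algebraMap R k (c j)) * X ^ (j : ℕ)

/-- The pairs of coefficient vectors of polynomials of degree at most `n`. -/
abbrev Pairs (n : ℕ) (R : Type) : Type := (Fin (n + 1) → R) × (Fin (n + 1) → R)

/-- The three polynomials `a`, `b`, `a - b` have the same even degree. -/
def FullDegree {k : Type} [Field k] (a b : k[X]) : Prop :=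
  b.natDegree = a.natDegree ∧ (a - b).natDegree = a.natDegree ∧ Even a.natDegree

/-- The conclusions over `L` (`L'` is a separable closure of `L`, `K = L(t)`, `F = L'(t)`), for the
pullback of the base `(a, b)` by `q / r`. -/
def HoldsOver {k : Type} [Field k] (a b q r : k[X]) (L L' K F : Type) [Field L] [Field L']
    [Algebra L L'] [Field K] [Algebra L[X] K] [Field F] [Algebra L'[X] F] [IsFractionRing L'[X] F]
    [Algebra K F] [Algebra k L] : Prop :=
  TateAtTwo (F := F) L' (crv (algebraMap L[X] K ((pb q r a).map (algebraMap k L)))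
    (algebraMap L[X] K ((pb q r b).map (algebraMap k L)))) ∧
  Complete K ((pb q r a).map (algebraMap k L)) ((pb q r b).map (algebraMap k L))

/-- The good pairs. -/
structure Good (k : Type) [Field k] (n : ℕ) (a b q r : k[X]) : Prop where
  cop : IsCoprime q r
  fib : ∀ ξ, (a * b * (a - b)).IsRoot ξ →
    Irreducible (q - C ξ * r) ∧ (q - C ξ * r).natDegree = n ∧ (q - C ξ * r).Separable
  tate : ∀ (L L' K F : Type) [Field L] [Field L'] [Algebra L L'] [Field K] [Algebra L[X] K]
    [Field F] [Algebra L'[X] F] [IsFractionRing L'[X] F] [Algebra K F]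
    [Algebra k L] [Algebra k L'] [IsScalarTower k L L'], IsTower L L' K F →
      ∀ M : IntermediateField k L', Normal k M →
        (∀ x : L, IsSeparable k x → algebraMap L L' x ∈ M) →
        (∀ ξ, (a * b * (a - b)).IsRoot ξ → ¬ ((q - C ξ * r).map (algebraMap k M)).Splits) →
        HoldsOver a b q r L L' K F
  solv : ∀ (L L' K F : Type) [Field L] [Field L'] [Algebra L L'] [Field K] [Algebra L[X] K]
    [Field F] [Algebra L'[X] F] [IsFractionRing L'[X] F] [Algebra K F]
    [Algebra k L] [Algebra k L'] [IsScalarTower k L L'], IsTower L L' K F →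
      (∀ x : L, IsSeparable k x → Group.IsSolvable (minpoly k x).Gal) →
        HoldsOver a b q r L L' K F

/-- The pair `y` over `R` is in the residue class `z`. -/
def InClass {R : Type} [CommRing R] {n : ℕ} {M : Ideal R} (y : Pairs n R)
    (z : Pairs n (R ⧸ M)) : Prop :=
  (∀ j, Ideal.Quotient.mk M (y.1 j) = z.1 j) ∧ (∀ j, Ideal.Quotient.mk M (y.2 j) = z.2 j)

/-- A sequence of finite sets of pairs which is equidistributed modulo each ideal with finite
quotient. -/
def Equidistributed {R : Type} [CommRing R] {n : ℕ} (B : ℕ → Finset (Pairs n R)) : Prop :=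
  ∀ M : Ideal R, Finite (R ⧸ M) → ∀ z : Pairs n (R ⧸ M),
    Tendsto (fun i => (((B i).filter (fun y => InClass y z)).card : ℝ) / ((B i).card : ℝ)) atTop
      (𝓝 (1 / (Nat.card (Pairs n (R ⧸ M)) : ℝ)))

/-- The vector `y` over `R` is in the residue class `z`. -/
def InClass₁ {R : Type} [CommRing R] {n : ℕ} {M : Ideal R} (y : Fin (n + 1) → R)
    (z : Fin (n + 1) → R ⧸ M) : Prop :=
  ∀ j, Ideal.Quotient.mk M (y j) = z j

/-- A sequence of finite sets of vectors which is equidistributed modulo each ideal with finite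
quotient. -/
def Equidistributed₁ {R : Type} [CommRing R] {n : ℕ} (B : ℕ → Finset (Fin (n + 1) → R)) : Prop :=
  ∀ M : Ideal R, Finite (R ⧸ M) → ∀ z : Fin (n + 1) → R ⧸ M,
    Tendsto (fun i => (((B i).filter (fun y => InClass₁ y z)).card : ℝ) / ((B i).card : ℝ)) atTop
      (𝓝 (1 / (Nat.card (Fin (n + 1) → R ⧸ M) : ℝ)))

/-- The roots of `a b (a - b)` are among the `ρ_i / D`. -/
def RootsIn {R k : Type} [CommRing R] [Field k] [Algebra R k] (D : R) {μ : ℕ} (ρ : Fin μ → R)
    (a b : k[X]) : Prop :=
  ∀ ξ : k, (a * b * (a - b)).IsRoot ξ → ∃ i, algebraMap R k (ρ i) = algebraMap R k D * ξ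

/-- The vector of all the coefficients. -/
def toV {n : ℕ} {R : Type} (z : Pairs n R) : Fin (n + 1) ⊕ Fin (n + 1) → R := Sum.elim z.1 z.2

theorem toV_inj {n : ℕ} {R : Type} : Function.Injective (toV (n := n) (R := R)) := by
  rintro ⟨a, b⟩ ⟨a', b'⟩ h
  exact Prod.ext (funext fun j => congrFun h (Sum.inl j)) (funext fun j => congrFun h (Sum.inr j))

theorem toV_surj {n : ℕ} {R : Type} (y : Fin (n + 1) ⊕ Fin (n + 1) → R) :
    ∃ z : Pairs n R, toV z = y := by
  refine ⟨(fun j => y (Sum.inl j), fun j => y (Sum.inr j)), ?_⟩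
  funext j
  rcases j with j | j <;> rfl

theorem inClass_iff {R : Type} [CommRing R] {n : ℕ} {M : Ideal R} (y : Pairs n R)
    (z : Pairs n (R ⧸ M)) :
    InClass y z ↔ ∀ j, Ideal.Quotient.mk M (toV y j) = toV z j := by
  constructor
  · rintro ⟨h1, h2⟩ (j | j)
    · exact h1 j
    · exact h2 j
  · intro h
    exact ⟨fun j => h (Sum.inl j), fun j => h (Sum.inr j)⟩

section good

open Pool.Agent.X243.Gen (FF FF_unit Zc Lev Aev cst lin_good aff_good pull_ext pull_solv bF_const)
open Pool.Agent.X243.Tate (bF_map)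
open Pool.Agent.Y160.T3 (bF)
open Pool.Agent.U660.FT (cl cm)

variable {k K₀ : Type} [Field k] [Field K₀] [Algebra k[X] K₀] [IsFractionRing k[X] K₀]

theorem good_of_FF (h2 : (2 : k) ≠ 0) {n : ℕ} {a b q r : k[X]} (hB : Base K₀ a b) (h5 : 5 ≤ n)
    (hn : Odd n) (hco : IsCoprime q r) (hq : q.natDegree = n)
    (hf : ∀ ξ, (a * b * (a - b)).IsRoot ξ → FF n (q - C ξ * r))
    (hd : r = 1 ∨ FullDegree a b) : Good k n a b q r where
  cop := hco
  fib := fun ξ h => ⟨(hf ξ h).1.1, (hf ξ h).1.2, (hf ξ h).2.1⟩
  tate := by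
    intro L L' K F _ _ _ _ _ _ _ _ _ _ _ _ hT M hMn hM hns
    exact pull_ext h2 hB h5 hn hco hq hf hd hT M hMn hM hns
  solv := by
    intro L L' K F _ _ _ _ _ _ _ _ _ _ _ _ hT hM
    exact pull_solv h2 hB h5 hn hco hq hf hd hT hM

variable {R : Type} [CommRing R] [IsDomain R] [IsIntegrallyClosed R] [IsNoetherianRing R]
  [Algebra R k] [IsFractionRing R k]

theorem poly_bF {n : ℕ} (c : Fin (n + 1) → R) : poly k c = (bF c).map (algebraMap R k) :=
  (bF_map (algebraMap R k) c).symm

theorem good_pair (h2 : (2 : k) ≠ 0) {n μ : ℕ} {a b : k[X]} (hB : Base K₀ a b)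
    (hfd : FullDegree a b) (h5 : 5 ≤ n) (hn : Odd n)
    {D : R} (hD : D ≠ 0) {ρ : Fin μ → R} (hρ : RootsIn D ρ a b) {z : Pairs n R}
    (h : ∀ s : Option (Option (Option (Fin μ)) × Fin 3),
      ∃ p ∈ Zc R (2 * n + 2) (cst (cl D) (cm ρ) none (some none)),
      (fun j => Ideal.Quotient.mk p (toV z j)) ∈ Lev n (cl D) (cm ρ) none (some none) s p) :
    Good k n a b (poly k z.1) (poly k z.2) := by
  obtain ⟨h1, h3⟩ := lin_good (k := k) (by omega : 3 ≤ n) h (poly k z.1) (poly k z.2)
    (poly_bF z.1) (poly_bF z.2)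
  have hd' : algebraMap R k D ≠ 0 := (map_ne_zero_iff _ (IsFractionRing.injective R k)).2 hD
  have hq : FF n (poly k z.1) := by
    have := h1 none
    have e : C (algebraMap R k (cl D (none : Option (Option (Fin μ))))) * poly k z.1 +
        C (algebraMap R k (cm ρ none)) * poly k z.2 = poly k z.1 := by
      show C (algebraMap R k 1) * poly k z.1 + C (algebraMap R k 0) * poly k z.2 = poly k z.1
      rw [map_one, map_zero, C_1, C_0]
      ring
    rwa [e] at this
  refine good_of_FF h2 hB h5 hn h3 hq.1.2 ?_ (Or.inr hfd)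
  intro ξ hξ
  obtain ⟨i, hi⟩ := hρ ξ hξ
  apply FF_unit hd'
  have := h1 (some (some i))
  have e : C (algebraMap R k D) * (poly k z.1 - C ξ * poly k z.2) =
      C (algebraMap R k (cl D (some (some i)))) * poly k z.1 +
        C (algebraMap R k (cm ρ (some (some i)))) * poly k z.2 := by
    show _ = C (algebraMap R k D) * poly k z.1 + C (algebraMap R k (-(ρ i))) * poly k z.2
    rw [map_neg, hi, C_neg, C_mul]
    ring
  rw [e]
  exact this

theorem exists_root {a b : k[X]} (hB : Base K₀ a b) : ∃ ξ, (a * b * (a - b)).IsRoot ξ := by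
  by_contra hno
  push Not at hno
  have hs : (a * b * (a - b)).Splits := (hB.sa.mul hB.sb).mul hB.sc
  have hne : a * b * (a - b) ≠ 0 :=
    mul_ne_zero (mul_ne_zero hB.ha hB.hb) (sub_ne_zero.2 hB.hab)
  have hd : (a * b * (a - b)).natDegree = 0 := by
    by_contra h0
    obtain ⟨ξ, hξ⟩ := hs.exists_eval_eq_zero (by
      rw [Ne, degree_eq_natDegree hne]
      exact_mod_cast h0)
    exact hno ξ hξ
  have ha := natDegree_mul (mul_ne_zero hB.ha hB.hb) (sub_ne_zero.2 hB.hab)
  have hb := natDegree_mul hB.ha hB.hb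
  have d1 : a.natDegree = 0 := by omega
  have d2 : b.natDegree = 0 := by omega
  rcases hB.odd with h | h
  · rw [d1, d2, max_self] at h
    exact absurd h (by decide)
  · have hof : ∀ {g : k[X]}, g.natDegree = 0 → g ≠ 0 → ¬ HasOddFactor g := by
      rintro g hg hg0 ⟨π, m, h1, h3, h4, -⟩
      have h5 : π ∣ g := (dvd_pow_self π (by omega)).trans h4
      have h6 := natDegree_le_of_dvd h5 hg0
      rw [hg] at h6
      have h7 : π.natDegree = 0 := by omega
      rw [h7] at h3
      exact absurd h3 (by decide)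
    have d3 : (a - b).natDegree = 0 := by omega
    rcases h with ⟨h, -⟩ | ⟨h, -⟩ | ⟨h, -⟩
    · exact hof d1 hB.ha h
    · exact hof d1 hB.ha h
    · exact hof d2 hB.hb h

theorem good_poly (h2 : (2 : k) ≠ 0) {n μ : ℕ} {a b : k[X]} (hB : Base K₀ a b)
    (h5 : 5 ≤ n) (hn : Odd n)
    {D : R} (hD : D ≠ 0) {ρ : Fin μ → R} (hρ : RootsIn D ρ a b) {z : Fin (n + 1) → R}
    (h : ∀ i : Fin μ × Fin 3, ∃ p ∈ Zc R (2 * n + 2) (∏ _i : Fin μ, D),
      (fun j => Ideal.Quotient.mk p (z j)) ∈
        Aev n (fun _ => D) (fun i j => if j = 0 then -(ρ i) else 0) i p) :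
    Good k n a b (poly k z) 1 := by
  have hd' : algebraMap R k D ≠ 0 := (map_ne_zero_iff _ (IsFractionRing.injective R k)).2 hD
  have key : ∀ ξ : k, (a * b * (a - b)).IsRoot ξ → FF n (poly k z - C ξ * 1) := by
    intro ξ hξ
    obtain ⟨i, hi⟩ := hρ ξ hξ
    apply FF_unit hd'
    refine aff_good (by omega : 3 ≤ n) h i ?_
    rw [bF_const, map_C, map_neg, hi, C_neg, C_mul, ← poly_bF]
    ring
  obtain ⟨ξ₀, hξ₀⟩ := exists_root hB
  have hq : (poly k z).natDegree = n := by
    have := (key ξ₀ hξ₀).1.2
    rwa [mul_one, natDegree_sub_C] at this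
  exact good_of_FF h2 hB h5 hn isCoprime_one_right hq key (Or.inl rfl)

end good

section density

variable (R k K₀ : Type) [CommRing R] [IsDomain R] [IsIntegrallyClosed R] [Algebra.FiniteType ℤ R]
  [Field k] [Algebra R k] [IsFractionRing R k] [Field K₀] [Algebra k[X] K₀] [IsFractionRing k[X] K₀]

/-- The congruences for pairs. -/
theorem densPair (hR : ¬ IsField R) (h2 : (2 : R) ≠ 0) {n : ℕ} (hn : 5 ≤ n) (hodd : Odd n) (μ : ℕ)
    {D : R} (hD : D ≠ 0) (η : ℝ) (hη : 0 < η) :
    ∃ M : Ideal R, Finite (R ⧸ M) ∧ ∀ (a b : k[X]), Base K₀ a b → FullDegree a b →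
      (∃ ρ : Fin μ → R, RootsIn D ρ a b) →
      (1 - η) * (Nat.card (R ⧸ M) : ℝ) ^ (Fintype.card (Fin (n + 1) ⊕ Fin (n + 1))) ≤
        (({x : Fin (n + 1) ⊕ Fin (n + 1) → R ⧸ M | ∀ y : Pairs n R,
          (∀ j, Ideal.Quotient.mk M (toV y j) = x j) →
          Good k n a b (poly k y.1) (poly k y.2)}.ncard : ℕ) : ℝ) := by
  have : IsNoetherianRing R := Algebra.FiniteType.isNoetherianRing ℤ R
  have h2k : (2 : k) ≠ 0 := by
    rw [← map_ofNat (algebraMap R k) 2]
    exact (map_ne_zero_iff _ (IsFractionRing.injective R k)).2 h2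
  obtain ⟨M, hM, hd⟩ := Pool.Agent.U660.FT.densU R hR h2 (μ := μ) (N := n) (by omega) hD η hη
  have := hM
  refine ⟨M, hM, ?_⟩
  rintro a b hB hfd ⟨ρ, hρ⟩
  refine (hd ρ).trans ?_
  have h3' : ∀ S T : Set (Fin (n + 1) ⊕ Fin (n + 1) → R ⧸ M), S ⊆ T →
      ((S.ncard : ℕ) : ℝ) ≤ ((T.ncard : ℕ) : ℝ) := fun S T h => by
    exact_mod_cast Set.ncard_le_ncard h (Set.toFinite _)
  apply h3'
  intro x hx y hy
  refine good_pair h2k hB hfd hn hodd hD hρ (fun s => ?_)
  obtain ⟨p, hp, hp'⟩ := hx s
  exact ⟨p, hp, hp' (toV y) hy⟩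

/-- The congruences for polynomials. -/
theorem densPoly (hR : ¬ IsField R) (h2 : (2 : R) ≠ 0) {n : ℕ} (hn : 5 ≤ n) (hodd : Odd n) (μ : ℕ)
    {D : R} (hD : D ≠ 0) (η : ℝ) (hη : 0 < η) :
    ∃ M : Ideal R, Finite (R ⧸ M) ∧ ∀ (a b : k[X]), Base K₀ a b →
      (∃ ρ : Fin μ → R, RootsIn D ρ a b) →
      (1 - η) * (Nat.card (R ⧸ M) : ℝ) ^ (Fintype.card (Fin (n + 1))) ≤
        (({z : Fin (n + 1) → R ⧸ M | ∀ y : Fin (n + 1) → R, InClass₁ y z →
          Good k n a b (poly k y) 1}.ncard : ℕ) : ℝ) := by
  have : IsNoetherianRing R := Algebra.FiniteType.isNoetherianRing ℤ R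
  have h2k : (2 : k) ≠ 0 := by
    rw [← map_ofNat (algebraMap R k) 2]
    exact (map_ne_zero_iff _ (IsFractionRing.injective R k)).2 h2
  obtain ⟨M, hM, hd⟩ := Pool.Agent.X243.Gen.densAff R hR h2 (I := Fin μ) (N := n) (by omega)
    (l := fun _ => D) (fun _ => hD) η hη
  have := hM
  refine ⟨M, hM, ?_⟩
  rintro a b hB ⟨ρ, hρ⟩
  refine (hd (fun i j => if j = 0 then -(ρ i) else 0)).trans ?_
  have h3' : ∀ S T : Set (Fin (n + 1) → R ⧸ M), S ⊆ T →
      ((S.ncard : ℕ) : ℝ) ≤ ((T.ncard : ℕ) : ℝ) := fun S T h => by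
    exact_mod_cast Set.ncard_le_ncard h (Set.toFinite _)
  apply h3'
  intro x hx y hy
  refine good_poly h2k hB hn hodd hD hρ (fun s => ?_)
  obtain ⟨p, hp, hp'⟩ := hx s
  exact ⟨p, hp, hp' y hy⟩

variable {R k}

omit [IsIntegrallyClosed R] [Algebra.FiniteType ℤ R] in
/-- A common denominator of the roots. -/
theorem exists_roots {a b : k[X]} (hne : a * b * (a - b) ≠ 0) :
    ∃ (D : R) (μ : ℕ) (ρ : Fin μ → R), D ≠ 0 ∧ RootsIn D ρ a b := by
  obtain ⟨D, hD⟩ := IsLocalization.exist_integer_multiples_of_finset (nonZeroDivisors R)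
    ((a * b * (a - b)).roots.toFinset)
  have hD0 : (D : R) ≠ 0 := nonZeroDivisors.ne_zero D.2
  obtain ⟨m, e⟩ : ∃ m, m = ((a * b * (a - b)).roots.toFinset).card := ⟨_, rfl⟩
  let φ : Fin m ≃ {x // x ∈ (a * b * (a - b)).roots.toFinset} :=
    (finCongr e).trans ((a * b * (a - b)).roots.toFinset).equivFin.symm
  have hint : ∀ i : Fin m, ∃ c : R, algebraMap R k c = algebraMap R k (D : R) * (φ i).1 := by
    intro i
    obtain ⟨c, hc⟩ := hD (φ i).1 (φ i).2
    refine ⟨c, hc.trans ?_⟩
    rw [Algebra.smul_def]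
  choose ρ hρ using hint
  refine ⟨D, m, ρ, hD0, fun ξ hξ => ?_⟩
  have hmem : ξ ∈ (a * b * (a - b)).roots.toFinset := by
    rw [Multiset.mem_toFinset]
    exact (mem_roots hne).2 hξ
  refine ⟨φ.symm ⟨ξ, hmem⟩, ?_⟩
  rw [hρ, Equiv.apply_symm_apply]

end density

theorem result :
    ∀ (R k K₀ : Type) [CommRing R] [IsDomain R] [IsIntegrallyClosed R] [Algebra.FiniteType ℤ R]
      [Field k] [Algebra R k] [IsFractionRing R k] [Field K₀] [Algebra k[X] K₀]
      [IsFractionRing k[X] K₀], ¬ IsField R → (2 : R) ≠ 0 →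
      (∀ n : ℕ, 5 ≤ n → Odd n →
        (∀ (μ : ℕ) (D : R), D ≠ 0 → ∀ η : ℝ, 0 < η → ∃ M : Ideal R, Finite (R ⧸ M) ∧
          ∀ (a b : k[X]), Base K₀ a b → FullDegree a b → (∃ ρ : Fin μ → R, RootsIn D ρ a b) →
            (1 - η) * (Nat.card (Pairs n (R ⧸ M)) : ℝ) ≤
              (({z : Pairs n (R ⧸ M) | ∀ y : Pairs n R, InClass y z →
                Good k n a b (poly k y.1) (poly k y.2)}.ncard : ℕ) : ℝ)) ∧
        (∀ B : ℕ → Finset (Pairs n R), (∀ i, (B i).Nonempty) → Equidistributed B →
          ∀ (a b : k[X]), Base K₀ a b → FullDegree a b →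
            Tendsto (fun i => (((B i).filter (fun y =>
                Good k n a b (poly k y.1) (poly k y.2))).card : ℝ) /
              ((B i).card : ℝ)) atTop (𝓝 1)) ∧
        (∀ (μ : ℕ) (D : R), D ≠ 0 → ∀ η : ℝ, 0 < η → ∃ M : Ideal R, Finite (R ⧸ M) ∧
          ∀ (a b : k[X]), Base K₀ a b → (∃ ρ : Fin μ → R, RootsIn D ρ a b) →
            (1 - η) * (Nat.card (Fin (n + 1) → R ⧸ M) : ℝ) ≤
              (({z : Fin (n + 1) → R ⧸ M | ∀ y : Fin (n + 1) → R, InClass₁ y z →
                Good k n a b (poly k y) 1}.ncard : ℕ) : ℝ)) ∧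
        (∀ B : ℕ → Finset (Fin (n + 1) → R), (∀ i, (B i).Nonempty) → Equidistributed₁ B →
          ∀ (a b : k[X]), Base K₀ a b →
            Tendsto (fun i => (((B i).filter (fun y =>
                Good k n a b (poly k y) 1)).card : ℝ) / ((B i).card : ℝ)) atTop (𝓝 1))) ∧
      Base K₀ (X : k[X]) (X - 1) ∧
      (∀ c e m : k, c ≠ 0 → e ≠ 0 → e ≠ 1 → c * e = m ^ 2 →
        Base K₀ (C c - X : k[X]) (C c - C e * X) ∧
        ∃ P : Pt (crv (algebraMap k[X] K₀ (C c - X)) (algebraMap k[X] K₀ (C c - C e * X))) K₀,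
          ∀ n : ℕ, 0 < n → n • P ≠ 0) ∧
      (∀ β : k, β ≠ 0 → β ≠ 1 → β ≠ -1 →
        Base K₀ (a5 β) (b5 β) ∧ FullDegree (a5 β) (b5 β) ∧
        ∃ P : Pt (crv (algebraMap k[X] K₀ (a5 β)) (algebraMap k[X] K₀ (b5 β))) K₀,
          ∀ n : ℕ, 0 < n → n • P ≠ 0) := by
  intro R k K₀ _ _ _ _ _ _ _ _ _ _ hR h2
  have : IsNoetherianRing R := Algebra.FiniteType.isNoetherianRing ℤ R
  have h2k : (2 : k) ≠ 0 := by
    rw [← map_ofNat (algebraMap R k) 2]
    exact (map_ne_zero_iff _ (IsFractionRing.injective R k)).2 h2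
  have hli : ∀ {G : Type} [AddCommGroup G], (∃ P : Fin 1 → G, LinearIndependent ℤ P) →
      ∃ P : G, ∀ n : ℕ, 0 < n → n • P ≠ 0 := by
    rintro G _ ⟨P, hP⟩
    refine ⟨P 0, fun n hn h0 => ?_⟩
    have h1 := Fintype.linearIndependent_iff.1 hP (fun _ => (n : ℤ)) (by
      rw [Fin.sum_univ_one, natCast_zsmul, h0]) 0
    have h3 : (n : ℤ) = 0 := h1
    omega
  refine ⟨fun n hn hodd => ?_, Pool.Agent.X243.Gen.base1 h2k, ?_, ?_⟩
  · have hcard : ∀ (M : Ideal R), (Nat.card (Pairs n (R ⧸ M)) : ℝ) =
        (Nat.card (R ⧸ M) : ℝ) ^ (Fintype.card (Fin (n + 1) ⊕ Fin (n + 1))) := by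
      intro M
      rw [Nat.card_congr (Equiv.ofBijective _ ⟨toV_inj (n := n) (R := R ⧸ M), toV_surj⟩),
        Nat.card_fun, Nat.card_eq_fintype_card (α := Fin (n + 1) ⊕ Fin (n + 1))]
      push_cast
      rfl
    have hcard₁ : ∀ (M : Ideal R), (Nat.card (Fin (n + 1) → R ⧸ M) : ℝ) =
        (Nat.card (R ⧸ M) : ℝ) ^ (Fintype.card (Fin (n + 1))) := by
      intro M
      rw [Nat.card_fun, Nat.card_eq_fintype_card (α := Fin (n + 1))]
      push_cast
      rfl
    refine ⟨?_, ?_, ?_, ?_⟩
    · intro μ D hD η hη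
      obtain ⟨M, hM, hd⟩ := densPair R k K₀ hR h2 hn hodd μ hD η hη
      have := hM
      refine ⟨M, hM, fun a b hB hfd hρ => ?_⟩
      rw [hcard]
      refine (hd a b hB hfd hρ).trans ?_
      rw [← Set.ncard_image_of_injective _ (toV_inj (R := R ⧸ M) (n := n))]
      have h5 : ∀ S T : Set (Fin (n + 1) ⊕ Fin (n + 1) → R ⧸ M), S ⊆ T →
          ((S.ncard : ℕ) : ℝ) ≤ ((T.ncard : ℕ) : ℝ) := fun S T h => by
        exact_mod_cast Set.ncard_le_ncard h (Set.toFinite _)
      apply h5
      intro x hx
      obtain ⟨z, rfl⟩ := toV_surj x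
      exact ⟨z, fun y hy => hx y ((inClass_iff y z).1 hy), rfl⟩
    · intro B hB heq a b hbase hfd
      obtain ⟨D, μ, ρ, hD, hρ⟩ := exists_roots (R := R) (a := a) (b := b)
        (mul_ne_zero (mul_ne_zero hbase.ha hbase.hb) (sub_ne_zero.2 hbase.hab))
      obtain ⟨S, hS⟩ : ∃ S : Set (Fin (n + 1) ⊕ Fin (n + 1) → R),
          S = {x | ∃ z : Pairs n R, toV z = x ∧ Good k n a b (poly k z.1) (poly k z.2)} :=
        ⟨_, rfl⟩
      have hSmem : ∀ y : Pairs n R, toV y ∈ S ↔ Good k n a b (poly k y.1) (poly k y.2) := by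
        intro y
        rw [hS]
        constructor
        · rintro ⟨z, hz, hg⟩
          rwa [toV_inj hz] at hg
        · intro hg
          exact ⟨y, rfl, hg⟩
      have key : ∀ η : ℝ, 0 < η → ∃ M : Ideal R, Finite (R ⧸ M) ∧
          (1 - η) * (Nat.card (R ⧸ M) : ℝ) ^ (Fintype.card (Fin (n + 1) ⊕ Fin (n + 1))) ≤
            (({x : Fin (n + 1) ⊕ Fin (n + 1) → R ⧸ M | ∀ y : Fin (n + 1) ⊕ Fin (n + 1) → R,
              (∀ j, Ideal.Quotient.mk M (y j) = x j) → y ∈ S}).ncard : ℝ) := by
        intro η hη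
        obtain ⟨M, hM, hd⟩ := densPair R k K₀ hR h2 hn hodd μ hD η hη
        have := hM
        refine ⟨M, hM, (hd a b hbase hfd ⟨ρ, hρ⟩).trans ?_⟩
        have h5 : ∀ S T : Set (Fin (n + 1) ⊕ Fin (n + 1) → R ⧸ M), S ⊆ T →
            ((S.ncard : ℕ) : ℝ) ≤ ((T.ncard : ℕ) : ℝ) := fun S T h => by
          exact_mod_cast Set.ncard_le_ncard h (Set.toFinite _)
        apply h5
        intro x hx y hy
        obtain ⟨z, rfl⟩ := toV_surj y
        rw [hSmem]
        exact hx z hy
      have hinj : Function.Injective (toV (R := R) (n := n)) := toV_inj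
      have hc : ∀ (i : ℕ) (P : (Fin (n + 1) ⊕ Fin (n + 1) → R) → Prop) [DecidablePred P]
          (Q : Pairs n R → Prop) [DecidablePred Q], (∀ y, P (toV y) ↔ Q y) →
          (((B i).map ⟨toV, hinj⟩).filter P).card = ((B i).filter Q).card := by
        intro i P _ Q _ hPQ
        rw [Finset.filter_map, Finset.card_map]
        congr 1
        ext y
        rw [Finset.mem_filter, Finset.mem_filter]
        exact and_congr_right fun _ => hPQ y
      have hlim := Pool.Agent.X243.Gen.tendsto_of_dens S key (fun i => (B i).map ⟨toV, hinj⟩)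
        (fun i => (hB i).map) (by
          intro M hM x
          obtain ⟨z, rfl⟩ := toV_surj x
          have h1 := heq M hM z
          rw [hcard] at h1
          refine h1.congr fun i => ?_
          rw [Finset.card_map, hc i _ (fun y => InClass y z) (fun y => (inClass_iff y z).symm)])
      refine hlim.congr fun i => ?_
      rw [Finset.card_map, hc i _ (fun y => Good k n a b (poly k y.1) (poly k y.2)) hSmem]
    · intro μ D hD η hη
      obtain ⟨M, hM, hd⟩ := densPoly R k K₀ hR h2 hn hodd μ hD η hη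
      refine ⟨M, hM, fun a b hB hρ => ?_⟩
      rw [hcard₁]
      exact hd a b hB hρ
    · intro B hB heq a b hbase
      obtain ⟨D, μ, ρ, hD, hρ⟩ := exists_roots (R := R) (a := a) (b := b)
        (mul_ne_zero (mul_ne_zero hbase.ha hbase.hb) (sub_ne_zero.2 hbase.hab))
      exact Pool.Agent.X243.Gen.tendsto_of_dens
        {y : Fin (n + 1) → R | Good k n a b (poly k y) 1} (fun η hη => by
          obtain ⟨M, hM, hd⟩ := densPoly R k K₀ hR h2 hn hodd μ hD η hη
          exact ⟨M, hM, hd a b hbase ⟨ρ, hρ⟩⟩) B hB (by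
          intro M hM x
          have h1 := heq M hM x
          rw [hcard₁] at h1
          refine h1.congr fun i => ?_
          congr!)
  · intro c e m hc he he1 hm
    exact ⟨Pool.Agent.X243.Gen.base3 h2k hc he he1 hm,
      hli (Pool.Agent.U660.FT.rank3 K₀ h2k hc he he1 hm)⟩
  · intro β h0 h1 hm1
    obtain ⟨hb, hd⟩ := Pool.Agent.X243.Gen.base5 (K := K₀) h2k h0 h1 hm1
    refine ⟨hb, ⟨hd.1, hd.2.1, ?_⟩, hli (Pool.Agent.U660.FT.rank5 K₀ h2k h0 h1 hm1)⟩
    rw [hd.2.2]
    exact even_two

end Pool.Agent.Results.MP_17a657_ag.CompleteDescentPullbacks
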