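import Pool.Agent.U436.DC.Main

/-!
# Coverings of the plane branched along a conic and its tangent lines, and their higher dimensional versions

Let `k` be an algebraically closed field of any characteristic, `d ≥ 1`, `g 1, …, g r` ARBITRARY polynomials in one
variable over `k` and `n s ≥ 1`, `b s ≥ 0` with `2 b s = n s c s`. The discriminant `D` of the general monic
polynomial `P = X ^ d + a (d-1) X ^ (d-1) + … + a 0` and the products `G s` of the values of `g s` at the roots of `P`
are polynomials in the coefficients `a 0, …, a (d-1)`. Let `Y` be the covering of affine space of dimension `d`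

  `y s ^ n s = D (a) ^ b s * G s (a)`,   `s = 1, …, r`.

For `d = 2` the equation `D = 0` is a conic and `G s = 0` is a union of tangent lines of the conic; every finite set
of tangent lines and all multiplicities occur: `Y` is an abelian covering of the plane which is branched along any
number of tangent lines of a conic, with arbitrary ramification, and along the conic, with ramification of order at
most two. (For `d > 2`: the discriminant hypersurface and osculating hyperplanes of a rational normal curve.)

We show that the `d`-th power of the curve `C : v s ^ n s = g s (t)` maps onto `Y`, by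
`(t j, v j) ↦ (coefficients of ∏ (X - t j), (∏_(i < j) (t j - t i)) ^ c s * ∏ v j s)`, and we determine its fibres
over the complement of the branch locus.

So every smooth projective variety `X` over a finitely generated field which is birational to `Y` over `k` (with
geometric genus as large as we want) is dominated by a product of curves. Tate's conjecture for divisors holds for
products of curves (Tate, Zarhin, Faltings) and for all varieties which they dominate, so it holds for `X` (not
formalised).
-/

set_option autoImplicit false

namespace Pool.Agent.Results.MP_17a657_ag.ConicTangentCovers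

open Pool.Agent.U436.DC Polynomial
open Pool.Agent.U436.NT (cf exists_cf exists_norm)

theorem result (k : Type) [Field k] [IsAlgClosed k] (d r : ℕ) (hd : 1 ≤ d) (g : Fin r → k[X])
    (n b c : Fin r → ℕ) (hn : ∀ s, n s ≠ 0) (hc : ∀ s, n s * c s = 2 * b s) :
    (∀ a : Fin d → k, ∃ t : Fin d → k, cf t = a) ∧
    ∃ (D : MvPolynomial (Fin d) k) (G : Fin r → MvPolynomial (Fin d) k),
      (∀ t : Fin d → k, MvPolynomial.eval (cf t) D = (∏ i : Fin d, ∏ j ∈ Finset.Ioi i, (t j - t i)) ^ 2) ∧
      (∀ (t : Fin d → k) s, MvPolynomial.eval (cf t) (G s) = ∏ j, (g s).eval (t j)) ∧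
      (∀ u : Fin d → k × (Fin r → k), (∀ j, u j ∈ curve g n) → toVariety c u ∈ variety D G n b) ∧
      (∀ x ∈ variety D G n b, ∃ u : Fin d → k × (Fin r → k), (∀ j, u j ∈ curve g n) ∧ toVariety c u = x) ∧
      (∀ u u' : Fin d → k × (Fin r → k), (∀ j, u j ∈ curve g n) → (∀ j, u' j ∈ curve g n) →
        vdm (fun j => (u j).1) ≠ 0 → (∀ j s, (u j).2 s ≠ 0) →
        (toVariety c u = toVariety c u' ↔ ∃ (σ : Equiv.Perm (Fin d)) (β : Fin d → Fin r → k),
          (∀ j s, β j s ^ n s = 1) ∧ (∀ s, ((Equiv.Perm.sign σ : ℤ) : k) ^ c s * ∏ j, β j s = 1) ∧
            ∀ j, u' j = ((u (σ j)).1, fun s => β j s * (u (σ j)).2 s))) := by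
  obtain ⟨D, hD⟩ := exists_disc (k := k) (d := d)
  choose G hG using fun s => exists_norm (d := d) (g s)
  exact ⟨exists_cf, D, G, hD, fun t s => hG s t, fun u hu => toVariety_mem hc hD (fun t s => hG s t) hu,
    fun x hx => toVariety_surj hd hn hc hD (fun t s => hG s t) hx,
    fun u u' hu hu' h1 h2 => toVariety_eq_iff hu hu' h1 h2⟩

end Pool.Agent.Results.MP_17a657_ag.ConicTangentCovers
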