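import Pool.Agent.U554.TD.Div

/-!
# The Tate conjecture for divisors and cubics with four variables in one block

Let `k` be a finitely generated field of characteristic `0`, `G_k` its Galois group, `ℓ` a prime.

* `𝓡` is the abelian category of the finite-dimensional continuous `ℓ`-adic representations of `G_k` and
  `one = ℚ_ℓ`; a morphism `one ⟶ M` is an invariant element of `M`.
* `O b m X`, for the separated schemes `X` of finite type over `k`, is the regulator
  `c : CH_b(X, m) ⊗ ℚ_ℓ → H_{m + 2 b}(X̄, ℚ_ℓ(b))^{G_k}` (Borel-Moore homology). If `X` is smooth of pure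
  dimension `n`, this is `CH^i(X, m) ⊗ ℚ_ℓ → H^{2 i - m}(X̄, ℚ_ℓ(i))^{G_k}`, `i = n - b`; for `m = 0`, `i = 1`
  it is the map `c` of the problem, and it is onto if and only if `V_ℓ Br(X̄)^{G_k} = 0`.

Let `T` be a trilinear form in three blocks `x`, `y`, `z` of `a₁`, `a₂`, `a₃` variables.

* `bilS T` is the closed subscheme `Z_T` of `𝔸^(a₂ + a₃)` given by the `a₁` bilinear equations
  `∂T/∂x_i (y, z) = 0`;
* `hypS T` is the smooth affine cubic hypersurface `Y_T : T(x, y, z) = 1` of dimension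
  `n = a₁ + a₂ + a₃ - 1`; `O (n - j) 1 (hypS T)` is the regulator `CH^j(Y_T, 1) ⊗ ℚ_ℓ → H^{2 j - 1}(Ȳ_T, ℚ_ℓ(j))^{G_k}`.

The known facts which are used are in `IsClassTheory`, `QuarticSurfaces` and `SurfacesSuffice`.
-/

set_option autoImplicit false

open CategoryTheory AlgebraicGeometry MvPolynomial Pool.Agent.Y116.UV Pool.Agent.U554.TW Pool.Agent.U554.TD
  Pool.Agent.U483.GU

universe w v u

namespace Pool.Agent.Results.MP_17a657_ag.CubicsWithFourVariables

/-- **The Tate conjecture for divisors and cubics with four variables in one block.**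

(A) If two of the three blocks of `T` have at most `4` variables (the third one is arbitrary), or if one block
has at most `3` variables, then all invariant classes on `Z_T` are algebraic, and
`CH^j(Y_T, 1) ⊗ ℚ_ℓ → H^{2 j - 1}(Ȳ_T, ℚ_ℓ(j))^{G_k}` is onto for all `j ≥ 1`.

(B) Let `s` be any number. The following are equivalent:

1. Q1 for `k`, `ℓ` and all smooth projective varieties of any dimension;
2. the same for the smooth projective surfaces;
3. all classes in `H_{2 b}(X)(-b)`, `b` arbitrary, are algebraic for all separated schemes `X` of finite type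
   of dimension at most `2`;
4. the same for all `Z_T` with a block of at most `4` variables, and for all closed subschemes of affine
   spaces which are given by equations with `t_1, …, t_c` terms, `∑ max(t_i - 2, 0) ≤ 2`;
5. `CH^j(Y_T, 1) ⊗ ℚ_ℓ → H^{2 j - 1}(Ȳ_T, ℚ_ℓ(j))^{G_k}` is onto for all `j ≥ 1` and all `T` with a block
   of at most `4` variables;
6. the same for all `T` with exactly `4` variables `y` and all `j ≥ 1` with `j ≥ s`. -/
theorem result {𝓡 : Type u} [Category.{v} 𝓡] [Abelian 𝓡] (one : 𝓡) {k : Type} [Field k] [CharZero k]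
    (O : ℤ → ℤ → Sch k → CReg.{w} one) (hO : IsClassTheory O) (hq : QuarticSurfaces O)
    (hs : SurfacesSuffice O) :
    (∀ (a₁ a₂ a₃ : ℕ) (T : Fin a₁ → Fin a₂ → Fin a₃ → k),
      Block 3 a₁ a₂ a₃ ∨ TwoBlocks 4 4 a₁ a₂ a₃ →
      AllOnto O (bilS T) ∧ ∀ j : ℕ, 1 ≤ j → (O (a₁ + a₂ + a₃ - 1 - j) 1 (hypS T)).Onto) ∧
    ∀ s : ℕ, List.TFAE [
      ∀ V : Sch k, SmoothProjective V → DivisorsOnto O V,
      ∀ V : Sch k, SmoothProjective V → topologicalKrullDim V.left ≤ (2 : ℕ) → (O 1 0 V).Onto,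
      ∀ X : Sch k, FT True X → topologicalKrullDim X.left ≤ (2 : ℕ) → AllOnto O X,
      (∀ (a₁ a₂ a₃ : ℕ) (T : Fin a₁ → Fin a₂ → Fin a₃ → k), Block 4 a₁ a₂ a₃ →
        AllOnto O (bilS T)) ∧
      ∀ (n : ℕ) (G : Finset (MvPolynomial (Fin n) k)), ∑ g ∈ G, (g.support.card - 2) ≤ 2 →
        AllOnto O (aff k (MvPolynomial (Fin n) k ⧸ Ideal.span (G : Set (MvPolynomial (Fin n) k)))),
      ∀ (a₁ a₂ a₃ : ℕ) (T : Fin a₁ → Fin a₂ → Fin a₃ → k), Block 4 a₁ a₂ a₃ →
        ∀ j : ℕ, 1 ≤ j → (O (a₁ + a₂ + a₃ - 1 - j) 1 (hypS T)).Onto,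
      ∀ (a₁ a₃ : ℕ) (T : Fin a₁ → Fin 4 → Fin a₃ → k), ∀ j : ℕ, s ≤ j → 1 ≤ j →
        (O (a₁ + 4 + a₃ - 1 - j) 1 (hypS T)).Onto] :=
  ⟨fun _ _ _ T ha => small_blocks hO hq T ha, fun s => divisor_tfae hO hs s⟩

end Pool.Agent.Results.MP_17a657_ag.CubicsWithFourVariables
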