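import Pool.Agent.Results.MP_17a657_ag.RandomPullbacks
import Pool.Agent.N24.RW.All
import Pool.Agent.U125.NO.Seq

/-!
# The Tate conjecture at 2 for pullbacks of all rational elliptic surfaces with a section of order two and
# rational bad fibres, along every normal orbit of the coefficients, over all number fields at the same time

The surfaces are those of the starting result `RandomPullbacks`. Let `K` be a number field, `ω` a basis of its
ring of integers, `m ≥ 5` odd. The coordinates of the coefficients of two polynomials `q`, `r` of degree at
most `m` over the ring of integers form a vector `c` of integers (`Ix m J` is the set of its coordinates). Let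
`F` be a finite extension of `K` and let `E₀ : y² = x (x² + a x + b)` be a rational elliptic surface over `F(s)`
with a section of order two: `a`, `b` are polynomials over `F` of degrees at most `2` and `4` (every such surface
has an equation of this form), neither `b` nor `d = a² - 4 b` is a constant times a square, and `b d` is a
product of linear polynomials over `F` (`Base`). Let `E` be the pullback of `E₀` by `s = q(t) / r(t)`, the generic
fibre of a simply connected elliptic surface, whose geometric genus tends to infinity with `m`.

`GoodOver ω F a b c`: `q`, `r` are coprime, the forms of the bad places are irreducible of degree `m`, and for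
EVERY extension field `L` of `F` such that for each element of `L` which is algebraic over `F` the Galois group of
its minimal polynomial over `F` is solvable (more generally if the elements of `L` which are algebraic over `F`
lie in a normal extension of `F` over which none of the forms splits into linear factors) the Tate conjecture
for divisors at the prime 2 holds for the surface over `L`.

**Theorem.** Let `x_0, x_1, …` be a normal orbit in `ℤ^κ` (`NormalOrbit`): the orbit of an integral vector
under a finite family of integral affine maps along ANY normal sequence of indices, the family being wide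
(for all `q` prime to some `q₀` the maps are bijective modulo `q`, and the vector can be moved to at least the
proportion `ε > 0`, not depending on `q`, of all vectors modulo `q`). There is ONE set `X` of times of density
zero such that for ALL odd `m ≥ 5`, all injective choices of the coordinates of the orbit as coordinates of the
coefficients, ALL finite extensions `F` of `K` in an algebraic closure and ALL bases `E₀` over `F` the vector at
the time `n` is good for `E₀` over `F` for all but finitely many `n ∉ X`.

Examples (second part): (1) `x_n = (⌊b ^ n ξ_l⌋)_l` for ANY vector `ξ` of real numbers which is normal to the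
base `b ≥ 2`; (2) the orbit of any vector `v ≠ 0` along ANY normal word in matrices which generate the special
linear group modulo all `q` prime to some `q₀` (generators of a thin group); (3) vectors of integers whose
digits are chosen from a restricted set of vectors.

The starting result `RandomPullbacks` has the orbits of thin groups for ALMOST ALL words, `MetricPullbacks`
almost all real numbers.

Proof. The exceptional sets are pronull (`RandomPullbacks.pro`, starting library). Normal orbits visit a
pronull set only at times of density zero (engine `Pool.Agent.U125.NO` of helper125); there are countably many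
`m`, `F` and `E₀`.
-/

set_option autoImplicit false

namespace Pool.Agent.Results.MP_17a657_ag.NormalSequences

open NumberField Filter Topology
open Pool.Agent.U125.NO (NormalOrbit Examples examples)
open Pool.Agent.Results.MP_17a657_ag.RandomPullbacks (Ix GoodOver pro)
open Pool.Agent.N140.RO.Pb (Base)

/-- The set `E` of natural numbers has density zero. -/
def Null (E : Set ℕ) : Prop :=
  Tendsto (fun N : ℕ => (({m : ℕ | m < N ∧ m ∈ E}.ncard : ℕ) : ℝ) / (N : ℝ)) atTop (𝓝 0)

/-- Degrees, choices of coordinates, finite extensions and bases. -/
def Cond (K : Type) [Field K] (J κ : Type) : Type :=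
  (Σ m : ℕ, {f : Ix m J → κ // 5 ≤ m ∧ ¬ 2 ∣ m ∧ Function.Injective f}) ×
  (Σ S : {S : Finset (AlgebraicClosure K) //
      FiniteDimensional K (IntermediateField.adjoin K (S : Set (AlgebraicClosure K)))},
    {t : Polynomial (IntermediateField.adjoin K (S.1 : Set (AlgebraicClosure K))) ×
        Polynomial (IntermediateField.adjoin K (S.1 : Set (AlgebraicClosure K))) // Base t.1 t.2})

theorem countable_poly' (E : Type) [Field E] [Countable E] : Countable (Polynomial E) := by
  rw [← Cardinal.mk_le_aleph0_iff]
  refine Polynomial.cardinalMk_le_max.trans ?_
  simp

instance (K : Type) [Field K] [NumberField K] (J κ : Type) [Finite J] [Finite κ] :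
    Countable (Cond K J κ) := by
  have := Pool.Agent.N140.RO.countable_algClosure K
  have h : ∀ S : Finset (AlgebraicClosure K),
      Countable (Polynomial (IntermediateField.adjoin K (S : Set (AlgebraicClosure K)))) := fun S =>
    countable_poly' _
  unfold Cond
  infer_instance

theorem result {K : Type} [Field K] [NumberField K] {J : Type} [Fintype J] [DecidableEq J]
    (ω : Module.Basis J ℤ (𝓞 K)) (κ : Type) [Fintype κ] [DecidableEq κ] :
    (∀ x : ℕ → κ → ℤ, NormalOrbit x → ∃ X : Set ℕ, Null X ∧
      ∀ m : ℕ, 5 ≤ m → ¬ 2 ∣ m → ∀ f : Ix m J → κ, Function.Injective f →
        ∀ F : IntermediateField K (AlgebraicClosure K), FiniteDimensional K F →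
          ∀ a b : Polynomial F, Base a b →
            {n : ℕ | n ∉ X ∧ ¬ GoodOver ω F a b (fun q => x n (f q))}.Finite) ∧
    Examples κ := by
  refine ⟨?_, examples κ⟩
  intro x hx
  obtain ⟨X, hX1, hX2⟩ := hx.avoids.diag (K := Cond K J κ)
    (fun a y => ¬ GoodOver ω (IntermediateField.adjoin K (a.2.1.1 : Set (AlgebraicClosure K)))
      a.2.2.1.1 a.2.2.1.2 (fun q => y (a.1.2.1 q)))
    (fun a => by
      obtain ⟨⟨m, f, hm, hodd, hf⟩, ⟨S, hfd⟩, ⟨p, b⟩, hB⟩ := a
      have hnf : NumberField (IntermediateField.adjoin K (S : Set (AlgebraicClosure K))) := by
        have : CharZero (IntermediateField.adjoin K (S : Set (AlgebraicClosure K))) :=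
          charZero_of_injective_algebraMap (algebraMap K _).injective
        have : FiniteDimensional ℚ (IntermediateField.adjoin K (S : Set (AlgebraicClosure K))) :=
          FiniteDimensional.trans ℚ K _
        exact ⟨⟩
      exact (Pool.Agent.N24.RW.clo (Ix m J)).2.2.2.2 κ f hf _
        (pro ω hm hodd (IntermediateField.adjoin K (S : Set (AlgebraicClosure K))) hB))
  refine ⟨X, hX1, fun m hm hodd f hf F hF a b hB => ?_⟩
  obtain ⟨S, hS⟩ : F.FG := by
    refine IntermediateField.fg_of_fg_toSubalgebra F ?_
    rw [Subalgebra.fg_iff_finiteType]
    have : FiniteDimensional K F.toSubalgebra := hF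
    infer_instance
  subst hS
  exact hX2 (⟨m, f, hm, hodd, hf⟩, ⟨⟨S, hF⟩, ⟨(a, b), hB⟩⟩)

end Pool.Agent.Results.MP_17a657_ag.NormalSequences
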